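import Mathlib
import Pool.Agent.H.MP_c4ba3a_an.A

open Set Filter Topology Complex MeasureTheory
open scoped ContDiff

namespace Pool.Agent.H.MP_c8d476_an
open Pool.Agent.H.MP_c4ba3a_an (weak lim D A W g aA aD D0 s0 key cf af)

lemma crgen {d n : ℕ} {Θ : (Fin d → ℝ) → Fin n → ℂ} (aΘ : ∀ p, AnalyticAt ℝ Θ p)
    {h : (Fin n → ℂ) → ℂ} {S : Set (Fin n → ℂ)} (e : Fin n → ℂ) (hc : ContinuousOn h S)
    (m : ∀ ε : ℝ, 0 ≤ ε → ∀ p, Θ p + ε • e ∈ S)
    (a : ∀ ε : ℝ, 0 < ε → ∀ p, AnalyticAt ℂ h (Θ p + ε • e))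
    {Z : (Fin d → ℝ) → Fin d → ℂ} (hZ : ContDiff ℝ ∞ Z) (hs : HasCompactSupport Z)
    (k : ∀ p, ∑ l, Z p l • fderiv ℝ Θ p (Pi.single l 1) = 0) :
    ∫ p, h (Θ p) * ∑ l, fderiv ℝ (fun q => Z q l) p (Pi.single l 1) = 0 := by
  have cΘ : Continuous Θ := continuous_iff_continuousAt.2 fun p => (aΘ p).continuousAt
  simpa using lim (G := fun ε p => h (Θ p + ε • e))
    (hc.comp (f := fun x : ℝ × (Fin d → ℝ) => Θ x.2 + x.1 • e) (by fun_prop)
      fun x hx => m _ hx.1 _) hZ hs fun ε e0 => by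
      refine weak (contDiff_iff_contDiffAt.2 fun p => ?_) hZ hs fun p => ?_
      · exact ((a ε e0 p).restrictScalars (𝕜 := ℝ)).contDiffAt.comp p
          ((aΘ p).contDiffAt.add contDiffAt_const)
      · have := ((a ε e0 p).differentiableAt.hasFDerivAt.restrictScalars ℝ).comp p
          ((aΘ p).differentiableAt.hasFDerivAt.add_const _)
        erw [this.fderiv]
        simpa [map_sum] using congrArg (fderiv ℂ h (Θ p + ε • e)) (k p)

abbrev E := Fin 8 → ℂ
abbrev P := Fin 13 → ℝ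

noncomputable def Θ (p : P) : E :=
  ![p 0 + p 1 * I, p 2 + p 3 * I, p 4 + (p 0 ^ 2 + p 1 ^ 2) * I, p 5 + (p 2 ^ 2 + p 3 ^ 2) * I,
    p 6 + p 7 * I, p 8 + p 9 * I, p 10 + p 11 * I,
    p 12 + (p 6 ^ 2 + p 7 ^ 2 + p 8 ^ 2 + p 9 ^ 2 + p 10 ^ 2 + p 11 ^ 2) * I]

noncomputable def L : E →L[ℝ] P := ContinuousLinearMap.pi fun i =>
  (if i ∈ ({1, 3, 7, 9, 11} : Finset (Fin 13)) then imCLM else reCLM).comp
    (ContinuousLinearMap.proj (![0, 0, 1, 1, 2, 3, 4, 4, 5, 5, 6, 6, 7] i))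

@[fun_prop] lemma ar (i : Fin 13) (p : P) : AnalyticAt ℝ (fun p : P => (p i : ℂ)) p :=
  (ofRealCLM.comp (ContinuousLinearMap.proj (R := ℝ) (φ := fun _ : Fin 13 => ℝ) i)).analyticAt p

lemma aΘ (p : P) : AnalyticAt ℝ Θ p := by
  refine AnalyticAt.pi fun i => ?_
  fin_cases i <;> simp only [Θ, Fin.zero_eta, Fin.mk_one, Fin.reduceFinMk, Matrix.cons_val] <;> fun_prop

lemma LΘ (p : P) : L (Θ p) = p := by
  ext i
  fin_cases i <;> simp [L, Θ, ← ofReal_pow]

lemma emb : IsEmbedding Θ := Function.LeftInverse.isEmbedding LΘ L.continuous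
    (continuous_iff_continuousAt.2 fun p => (aΘ p).continuousAt)

lemma inj (p : P) : Function.Injective (fderiv ℝ Θ p) := by
  have := L.hasFDerivAt.comp p (aΘ p).differentiableAt.hasFDerivAt
  rw [show L ∘ Θ = id from funext LΘ] at this
  exact Function.LeftInverse.injective (g := L) fun a => congrArg (· a) (this.unique (hasFDerivAt_id p))

noncomputable def ρ (z : E) : Fin 3 → ℝ :=
  ![(z 2).im - normSq (z 0), (z 3).im - normSq (z 1),
    (z 7).im - (normSq (z 4) + normSq (z 5) + normSq (z 6))]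

lemma rng : range Θ = ρ ⁻¹' {0} := by
  ext z
  constructor
  · rintro ⟨p, rfl⟩
    ext i
    fin_cases i <;> simp [ρ, Θ, normSq_apply, sq]
    ring
  · intro h
    have h0 := congrFun h 0
    have h1 := congrFun h 1
    have h2 := congrFun h 2
    simp [ρ, normSq_apply] at h0 h1 h2
    refine ⟨L z, ?_⟩
    ext i
    fin_cases i <;> simp [L, Θ, Complex.ext_iff, sq] <;> linarith

noncomputable def re' (i : Fin 8) : E →L[ℝ] ℝ := reCLM.comp (ContinuousLinearMap.proj i)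
noncomputable def im' (i : Fin 8) : E →L[ℝ] ℝ := imCLM.comp (ContinuousLinearMap.proj i)

@[fun_prop] lemma are (i : Fin 8) (z : E) : AnalyticAt ℝ (fun z : E => (z i).re) z := (re' i).analyticAt z
@[fun_prop] lemma aim (i : Fin 8) (z : E) : AnalyticAt ℝ (fun z : E => (z i).im) z := (im' i).analyticAt z

lemma aρ (z : E) : AnalyticAt ℝ ρ z := by
  refine AnalyticAt.pi fun i => ?_
  fin_cases i <;> simp only [ρ, normSq_apply, Fin.zero_eta, Fin.mk_one, Fin.reduceFinMk,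
    Matrix.cons_val] <;> fun_prop

def b (i : Fin 8) (z v : E) : ℝ := 2 * ((z i).re * (v i).re + (z i).im * (v i).im)

lemma dρ (z v : E) : fderiv ℝ ρ z v = ![(v 2).im - b 0 z v, (v 3).im - b 1 z v,
    (v 7).im - (b 4 z v + b 5 z v + b 6 z v)] := by
  have r : ∀ i, HasFDerivAt (fun z : E => (z i).re) (re' i) z := fun i => (re' i).hasFDerivAt
  have m : ∀ i, HasFDerivAt (fun z : E => (z i).im) (im' i) z := fun i => (im' i).hasFDerivAt
  have n := fun i => ((r i).mul (r i)).add ((m i).mul (m i))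
  have k := fun i => hasFDerivAt_pi'.1 (aρ z).differentiableAt.hasFDerivAt i
  ext i
  fin_cases i
  · have := congrArg (· v) ((k 0).unique ((m 2).sub (n 0)))
    simp [re', im'] at this
    simp [this, b]; ring
  · have := congrArg (· v) ((k 1).unique ((m 3).sub (n 1)))
    simp [re', im'] at this
    simp [this, b]; ring
  · have := congrArg (· v) ((k 2).unique ((m 7).sub (((n 4).add (n 5)).add (n 6))))
    simp [re', im'] at this
    simp [this, b]; ring

lemma ddρ (z v : E) : fderiv ℝ (fun x => fderiv ℝ ρ x v) z v =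
    ![-2 * normSq (v 0), -2 * normSq (v 1), -2 * (normSq (v 4) + normSq (v 5) + normSq (v 6))] := by
  let N := fun i => (2 : ℝ) • ((v i).re • re' i + (v i).im • im' i)
  have n : ∀ i, HasFDerivAt (fun z : E => b i z v) (N i) z :=
    fun i => (((re' i).hasFDerivAt.mul_const _).add ((im' i).hasFDerivAt.mul_const _)).const_mul 2
  simp only [dρ]
  have : HasFDerivAt (fun x : E => ![(v 2).im - b 0 x v, (v 3).im - b 1 x v,
      (v 7).im - (b 4 x v + b 5 x v + b 6 x v)])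
      (ContinuousLinearMap.pi ![-N 0, -N 1, -(N 4 + N 5 + N 6)]) z :=
    hasFDerivAt_pi.2 fun i => by
      fin_cases i
      exacts [(n 0).const_sub _, (n 1).const_sub _, (((n 4).add (n 5)).add (n 6)).const_sub _]
  rw [this.fderiv]
  ext i
  fin_cases i <;> simp [N, re', im', normSq_apply] <;> ring

def π (z : E) : Fin 4 → ℂ := ![z 0, z 1, z 2, z 3]

noncomputable def F (z : E) : E :=
  ![z 0, z 1, z 2, z 3, (z 2 + I) / 2 * g 0 (π z), (z 2 + I) / 2 * g 1 (π z),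
    (z 2 + I) / 2 * g 2 (π z), z 2]

@[fun_prop] lemma an (i : Fin 8) (w : E) : AnalyticAt ℂ (fun w : E => w i) w :=
  (ContinuousLinearMap.proj (R := ℂ) (φ := fun _ : Fin 8 => ℂ) i).analyticAt w

lemma aπ (z : E) : AnalyticAt ℂ π z := by
  refine AnalyticAt.pi fun i => ?_
  fin_cases i
  exacts [an 0 z, an 1 z, an 2 z, an 3 z]

lemma cF : ContinuousOn F (π ⁻¹' W) := by
  have c : ∀ j, ContinuousOn (fun z : E => (z 2 + I) / 2 * Pool.Agent.H.MP_c4ba3a_an.f (π z) j)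
      (π ⁻¹' W) := fun j => ContinuousOn.mul (by fun_prop) ((cf j).comp
        (fun z _ => (aπ z).continuousAt.continuousWithinAt) fun z h => h)
  refine continuousOn_pi.2 fun j => ?_
  fin_cases j
  exacts [(continuous_apply 0).continuousOn, (continuous_apply 1).continuousOn,
    (continuous_apply 2).continuousOn, (continuous_apply 3).continuousOn, c 0, c 1, c 2,
    (continuous_apply 2).continuousOn]

lemma aF {z : E} (h : π z ∈ W) (e : π z ≠ 0) (j : Fin 8) : AnalyticAt ℂ (fun z => F z j) z := by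
  have c : ∀ j, AnalyticAt ℂ (fun z : E => (z 2 + I) / 2 * Pool.Agent.H.MP_c4ba3a_an.f (π z) j) z :=
    fun j => AnalyticAt.mul (f := fun z : E => (z 2 + I) / 2) (by fun_prop) ((af h e j).comp (aπ z))
  fin_cases j
  exacts [an 0 z, an 1 z, an 2 z, an 3 z, c 0, c 1, c 2, an 2 z]

lemma on {z : E} (h : z ∈ ρ ⁻¹' {0}) : normSq (z 0) = (z 2).im ∧ normSq (z 1) = (z 3).im := by
  have h0 := congrFun h 0
  have h1 := congrFun h 1
  simp [ρ] at h0 h1
  exact ⟨by linarith, by linarith⟩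

lemma mem {z : E} (h : z ∈ ρ ⁻¹' {0}) : π z ∈ W := ⟨(on h).1.le, (on h).2.le⟩

lemma gF {z : E} (h : π z ∈ W) (k : Fin 3) :
    (z 2 + I) / 2 * g k (π z) = z 0 * (A (π z) k / D (π z)) := by
  have : z 2 + I ≠ 0 := s0 h
  simp only [g, π, Matrix.cons_val]
  field_simp

lemma maps : MapsTo F (ρ ⁻¹' {0}) (ρ ⁻¹' {0}) := fun z h => by
  have o := on h
  ext i
  fin_cases i
  · exact congrFun h 0
  · exact congrFun h 1
  simp only [ρ, F, Fin.reduceFinMk, Matrix.cons_val, gF (mem h), normSq_mul, normSq_div]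
  by_cases e : π z = 0
  · have : z 0 = 0 := congrFun e 0
    simp [← o.1, this]
  have d := normSq_pos.2 fun k => e (D0 (mem h) k)
  have k := key (π z)
  simp only [π, Matrix.cons_val, ← o.1, ← o.2] at k d ⊢
  field_simp
  rw [k]; simp

lemma cr (j : Fin 8) {Z : P → Fin 13 → ℂ} (hZ : ContDiff ℝ ∞ Z) (hc : HasCompactSupport Z)
    (h : ∀ p, ∑ l, Z p l • fderiv ℝ Θ p (Pi.single l 1) = 0) :
    ∫ p, F (Θ p) j * ∑ l, fderiv ℝ (fun q => Z q l) p (Pi.single l 1) = 0 := by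
  have o := fun p => on (rng ▸ mem_range_self p : Θ p ∈ ρ ⁻¹' {0})
  have m : ∀ ε : ℝ, 0 ≤ ε → ∀ p, Θ p + ε • (![0, 0, I, I, 0, 0, 0, 0] : E) ∈ π ⁻¹' W := fun ε e p =>
    ⟨by simpa [π] using (o p).1.le.trans (le_add_of_nonneg_right e),
     by simpa [π] using (o p).2.le.trans (le_add_of_nonneg_right e)⟩
  refine crgen aΘ (h := fun z => F z j) _ (continuousOn_pi.1 cF j) m (fun ε e p =>
    aF (m ε e.le p) (fun k => ?_) j) hZ hc h
  have := congrArg im (congrFun k 2)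
  simp [π] at this
  linarith [(o p).1, normSq_nonneg (Θ p 0)]

noncomputable def c (x u v : ℝ) : P := x • Pi.single 0 1 + u • Pi.single 4 1 + v • Pi.single 5 1

lemma val (x u v : ℝ) : F (Θ (c x u v)) 4 =
    x * (((u + x ^ 2 * I) * v - I * (u + x ^ 2 * I + v)) / ((u + x ^ 2 * I) * v + I * (u + x ^ 2 * I + v))) := by
  have := gF (mem (rng ▸ mem_range_self (c x u v) : Θ _ ∈ ρ ⁻¹' {0})) 0
  simp only [F, Matrix.cons_val, this]
  simp [A, D, π, Θ, c]

lemma notC1 : ¬ ContDiffAt ℝ 1 (F ∘ Θ) 0 := fun h => by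
  have h4 := ((contDiffAt_pi.1 h 4).hasStrictFDerivAt one_ne_zero).isLittleO
  set T := fderiv ℝ (fun p => (F ∘ Θ) p 4) 0
  have k : ∀ u : ℝ → ℝ, Continuous u → u 0 = 0 → Tendsto (fun τ : ℝ =>
      ((u τ + (τ ^ 2 : ℝ) ^ 2 * I) * (-u τ : ℝ) - I * (u τ + (τ ^ 2 : ℝ) ^ 2 * I + (-u τ : ℝ))) /
      ((u τ + (τ ^ 2 : ℝ) ^ 2 * I) * (-u τ : ℝ) + I * (u τ + (τ ^ 2 : ℝ) ^ 2 * I + (-u τ : ℝ))))
      (𝓝[≠] 0) (𝓝 (T (Pi.single 0 1))) := fun u hu u0 => by
    have t : Tendsto (fun τ : ℝ => (c (τ ^ 2) (u τ) (-u τ), c 0 (u τ) (-u τ))) (𝓝[≠] 0) (𝓝 (0, 0)) := by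
      refine tendsto_nhdsWithin_of_tendsto_nhds (Continuous.tendsto' ?_ _ _ (by simp [c, u0]))
      unfold c; fun_prop
    have := (h4.comp_tendsto t).trans_isBigO (k := fun τ : ℝ => ((τ ^ 2 : ℝ) : ℂ))
      (Asymptotics.IsBigO.of_bound' (Eventually.of_forall fun τ => by
        simp [c, Pi.norm_single, norm_smul]))
    rw [← tendsto_sub_nhds_zero_iff]
    refine this.tendsto_div_nhds_zero.congr' (eventually_nhdsWithin_of_forall fun τ hτ => ?_)
    have n : ((τ ^ 2 : ℝ) : ℂ) ≠ 0 := ofReal_ne_zero.2 (pow_ne_zero 2 hτ)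
    have e : c (τ ^ 2) (u τ) (-u τ) - c 0 (u τ) (-u τ) = τ ^ 2 • Pi.single 0 1 := by
      simp [c]
    simp only [Function.comp, val, e, map_smul, real_smul, ofReal_zero, zero_mul, sub_zero]
    rw [← mul_sub, mul_div_cancel_left₀ _ n]
  have a := tendsto_nhds_unique (k 0 continuous_const rfl) ((tendsto_const_nhds (x := -1)).congr'
    (eventually_nhdsWithin_of_forall fun τ hτ => by
      have : (τ : ℂ) ≠ 0 := ofReal_ne_zero.2 hτ
      simp; field_simp))
  have l : ContinuousAt (fun τ : ℝ => (-1 - τ ^ 3 * I + τ ^ 2 : ℂ) / (-1 - τ ^ 3 * I - τ ^ 2)) 0 :=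
    ContinuousAt.div (f := fun τ : ℝ => (-1 - τ ^ 3 * I + τ ^ 2 : ℂ))
      (g := fun τ : ℝ => (-1 - τ ^ 3 * I - τ ^ 2 : ℂ)) (by fun_prop) (by fun_prop) (by simp)
  have b := tendsto_nhds_unique (k id continuous_id rfl) ((l.tendsto.mono_left nhdsWithin_le_nhds).congr'
    (eventually_nhdsWithin_of_forall fun τ hτ => by
      have : (τ : ℂ) ^ 2 ≠ 0 := pow_ne_zero 2 (ofReal_ne_zero.2 hτ)
      beta_reduce
      rw [← mul_div_mul_left _ _ this, id]
      push_cast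
      congr 1 <;> ring_nf <;> simp [sub_eq_add_neg]))
  rw [a] at b
  norm_num at b

end Pool.Agent.H.MP_c8d476_an
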